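import Pool.Agent.V11231.OMF.Thick
import Pool.Agent.H587R2.MRA.Core
import Pool.Agent.H587R2.MRA.Count

/-! Circuits with many outputs, matrix-vector products and unreliable negations. -/

set_option autoImplicit false
set_option linter.unusedSectionVars false
set_option linter.unusedVariables false

namespace Pool.Agent.V11231.OMF

open Finset Pool.Agent.V11231.FLT Pool.Agent.V11231.VCF Pool.Agent.H587R2.MRA

/-- A circuit with the gates `0, ..., s - 1` whose inputs are bits indexed by `E` and their
negations: `(e, true)` stands for the bit `e` and `(e, false)` for its negation. Gate `i` has `w i`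
inputs (any number), namely `a i j`, each a literal (`0` or `1`) or an earlier gate; it computes a
nondecreasing function `op i` of real numbers, and its value on the values `y` of the literals is
`val y i`. For each question `q` there is an output gate `out q`. -/
structure LiteralNetwork (E Q : Type) where
  s : ℕ
  w : Fin s → ℕ
  a : (i : Fin s) → Fin (w i) → (E × Bool) ⊕ Fin s
  op : (i : Fin s) → (Fin (w i) → ℝ) → ℝ
  val : (E × Bool → Bool) → Fin s → ℝ
  out : Q → Fin s
  earlier : ∀ i j m, a i j = Sum.inr m → m < i
  mono : ∀ i, Monotone (op i)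
  spec : ∀ y i, val y i = op i (fun j =>
    Sum.elim (fun p => if y p = true then (1 : ℝ) else 0) (val y) (a i j))

/-- The number of wires. -/
def LiteralNetwork.wires {E Q : Type} (C : LiteralNetwork E Q) : ℕ := ∑ i, C.w i

/-- The circuit answers the question `q` with yes on the input `x` if the negated inputs of the bits
in `Z` are stuck at `0`. -/
def LiteralNetwork.Yes {E Q : Type} (C : LiteralNetwork E Q) (x : E → Bool) (Z : Set E) (q : Q) :
    Prop :=
  0 < C.val (literals x Z) (C.out q)

/-- The probability that a circuit that is chosen uniformly at random from the family `C` answers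
the question `q` with yes on the input `x`, without faults. -/
noncomputable def yesProb {E Q R : Type} (C : R → LiteralNetwork E Q) (x : E → Bool) (q : Q) : ℝ :=
  (Nat.card {ρ : R // (C ρ).Yes x ∅ q} : ℝ) / Nat.card R

/-- The probability that a circuit that is chosen uniformly at random from the family `C` answers
the question `q` with yes on the input `x`, if each negated input is stuck at `0` independently with
probability `1 / D` (each bit `e` gets a random number `f e` from `0` to `D - 1`, and `0` means a
fault). -/
noncomputable def faultyYesProb {E Q R : Type} (C : R → LiteralNetwork E Q) (D : ℕ)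
    (x : E → Bool) (q : Q) : ℝ :=
  (Nat.card {v : R × (E → Fin D) // (C v.1).Yes x {e | (v.2 e : ℕ) = 0} q} : ℝ) /
    Nat.card (R × (E → Fin D))

lemma ite_mono {a b : Bool} (h : a ≤ b) : (if a = true then (1 : ℝ) else 0) ≤
    (if b = true then (1 : ℝ) else 0) := by
  cases a
  · simp only [Bool.false_eq_true, if_false]
    split_ifs <;> norm_num
  · have : b = true := Bool.eq_true_of_true_le h
    rw [this]

/-- the gates are monotone -/
lemma val_mono {E Q : Type} (C : LiteralNetwork E Q) {y z : E × Bool → Bool} (h : y ≤ z) :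
    ∀ (m : ℕ) (i : Fin C.s), (i : ℕ) = m → C.val y i ≤ C.val z i := by
  intro m
  induction m using Nat.strong_induction_on with
  | _ m ih =>
    intro i hi
    rw [C.spec y i, C.spec z i]
    apply C.mono i
    intro j
    dsimp only
    rcases hc : C.a i j with p | g
    · rw [Sum.elim_inl, Sum.elim_inl]
      exact ite_mono (h p)
    · rw [Sum.elim_inr, Sum.elim_inr]
      have h1 := C.earlier i j g hc
      exact ih g (by rw [← hi]; exact h1) g rfl

section walk

open Classical

variable {X I J K E Q : Type} [Fintype I] [Fintype J] [Fintype K] [Preorder X]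
  {G : I → K → Prop} {τ : J → K → X} {ζ : I → J → X} {r : ℕ}

/-- the value of a wire -/
noncomputable def wv (C : LiteralNetwork E Q) (lit : X → E × Bool → Bool)
    (b : (E × Bool) ⊕ Fin C.s) (x : X) : ℝ :=
  Sum.elim (fun p => if lit x p = true then (1 : ℝ) else 0) (C.val (lit x)) b

lemma wv_mono (C : LiteralNetwork E Q) {lit : X → E × Bool → Bool} (hlit : Monotone lit)
    (b : (E × Bool) ⊕ Fin C.s) : Monotone (wv C lit b) := by
  intro x y hxy
  unfold wv
  rcases b with p | g
  · simp only [Sum.elim_inl]
    exact ite_mono (hlit hxy p)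
  · simp only [Sum.elim_inr]
    exact val_mono C (hlit hxy) g g rfl

/-- Every triple of an output is served by a wire. -/
lemma walk (hX : Points G τ ζ r) (C : LiteralNetwork E Q) {lit : X → E × Bool → Bool}
    (hlit : Monotone lit)
    (hin : ∀ (p : E × Bool) (i : I) (j : J) (k : K),
      wv C lit (Sum.inl p) (ζ i j) < wv C lit (Sum.inl p) (τ j k) →
      k ∈ cols τ r (wv C lit (Sum.inl p)) j) (i : I) (j : J) (k : K) :
    ∀ (m : ℕ) (g : Fin C.s), (g : ℕ) = m →
      wv C lit (Sum.inr g) (ζ i j) < wv C lit (Sum.inr g) (τ j k) →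
      k ∉ cols τ r (wv C lit (Sum.inr g)) j →
      ∃ q : (g' : Fin C.s) × Fin (C.w g'), (i, j, k) ∈
        wire τ ζ r (wv C lit (Sum.inr q.1)) (wv C lit (C.a q.1 q.2)) := by
  intro m
  induction m using Nat.strong_induction_on with
  | _ m ih =>
    intro g hg hlt hcol
    have hval : ∀ x, wv C lit (Sum.inr g) x = C.op g (fun a => wv C lit (C.a g a) x) := by
      intro x
      unfold wv
      simp only [Sum.elim_inr]
      rw [C.spec]
    have hD : C.op g (fun a => wv C lit (C.a g a) (ζ i j)) <
        C.op g (fun a => wv C lit (C.a g a) (τ j k)) := by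
      rw [← hval, ← hval]
      exact hlt
    obtain ⟨a, ha⟩ := gate_D (V := fun a x => wv C lit (C.a g a) x) (C.mono g) hD
    have hrow : i ∈ rows ζ r (wv C lit (Sum.inr g)) j := by
      rcases hX.mem (wv_mono C hlit (Sum.inr g)) hlt with h | h
      · exact h
      · exact absurd h hcol
    by_cases hc : k ∈ cols τ r (wv C lit (C.a g a)) j
    · refine ⟨⟨g, a⟩, ?_⟩
      simp only [wire, mem_filter, mem_univ, true_and]
      exact ⟨hrow, hc, ha⟩
    · rcases hca : C.a g a with p | g'
      · rw [hca] at hc ha
        exact absurd (hin p i j k ha) hc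
      · rw [hca] at hc ha
        exact ih g' (by rw [← hg]; exact C.earlier g a g' hca) g' rfl ha hc

/-- The number of the triples which are distinguished by the outputs. -/
lemma card_walk (hX : Points G τ ζ r) (C : LiteralNetwork E Q) {lit : X → E × Bool → Bool}
    (hlit : Monotone lit)
    (hin : ∀ (p : E × Bool) (i : I) (j : J) (k : K),
      wv C lit (Sum.inl p) (ζ i j) < wv C lit (Sum.inl p) (τ j k) →
      k ∈ cols τ r (wv C lit (Sum.inl p)) j) (qu : I → J → Q) :
    (univ.filter fun p : I × J × K =>
      wv C lit (Sum.inr (C.out (qu p.1 p.2.1))) (ζ p.1 p.2.1) <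
        wv C lit (Sum.inr (C.out (qu p.1 p.2.1))) (τ p.2.1 p.2.2)).card ≤
      (r - 1) ^ 2 * C.wires + Fintype.card I * Fintype.card J * (r - 1) := by
  have hsub : (univ.filter fun p : I × J × K =>
      wv C lit (Sum.inr (C.out (qu p.1 p.2.1))) (ζ p.1 p.2.1) <
        wv C lit (Sum.inr (C.out (qu p.1 p.2.1))) (τ p.2.1 p.2.2)) ⊆
      ((univ : Finset ((g' : Fin C.s) × Fin (C.w g'))).biUnion fun q =>
        wire τ ζ r (wv C lit (Sum.inr q.1)) (wv C lit (C.a q.1 q.2))) ∪
      (univ : Finset (I × J)).biUnion fun q =>
        (cols τ r (wv C lit (Sum.inr (C.out (qu q.1 q.2)))) q.2).image fun k => (q.1, q.2, k) := by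
    rintro ⟨i, j, k⟩ hp
    simp only [mem_filter, mem_univ, true_and] at hp
    by_cases hc : k ∈ cols τ r (wv C lit (Sum.inr (C.out (qu i j)))) j
    · refine mem_union_right _ (mem_biUnion.2 ⟨(i, j), mem_univ _, ?_⟩)
      exact mem_image.2 ⟨k, hc, rfl⟩
    · obtain ⟨q, hq⟩ := walk hX C hlit hin i j k _ _ rfl hp hc
      exact mem_union_left _ (mem_biUnion.2 ⟨q, mem_univ _, hq⟩)
  refine (card_le_card hsub).trans ((card_union_le _ _).trans (add_le_add ?_ ?_))
  · refine card_biUnion_le.trans ?_
    calc ∑ q : (g' : Fin C.s) × Fin (C.w g'),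
          (wire τ ζ r (wv C lit (Sum.inr q.1)) (wv C lit (C.a q.1 q.2))).card
        ≤ ∑ _q : (g' : Fin C.s) × Fin (C.w g'), (r - 1) ^ 2 :=
          sum_le_sum fun q _ => hX.card_wire _ (wv_mono C hlit _)
      _ = (r - 1) ^ 2 * C.wires := by
          rw [sum_const, card_univ, Fintype.card_sigma, smul_eq_mul, mul_comm]
          simp [LiteralNetwork.wires]
  · refine card_biUnion_le.trans ?_
    calc ∑ q : I × J, ((cols τ r (wv C lit (Sum.inr (C.out (qu q.1 q.2)))) q.2).image
          fun k => (q.1, q.2, k)).card
        ≤ ∑ _q : I × J, (r - 1) := sum_le_sum fun q _ =>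
          card_image_le.trans (card_cols_le _ _ _ _)
      _ = _ := by simp

end walk

end Pool.Agent.V11231.OMF
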