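import Pool.Agent.H587R2.MRA.Count

/-! A matrix with many ones and without large all-ones submatrices. -/

set_option autoImplicit false

namespace Pool.Agent.V11231.OMF

open Finset Pool.Agent.H587R2.MRA

open Classical in
theorem card_rect2 (N n r : ℕ) (hrN : r ≤ N) (hrn : r ≤ n) :
    (univ.filter fun M : Fin N × Fin n → Bool => ∃ (S : Finset (Fin N)) (T : Finset (Fin n)),
      (∀ i ∈ S, ∀ k ∈ T, M (i, k) = true) ∧ r ≤ S.card ∧ r ≤ T.card).card * 2 ^ (r ^ 2) ≤
      (N ^ r * n ^ r) * 2 ^ (N * n) := by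
  have h1 : (univ.filter fun M : Fin N × Fin n → Bool =>
      ∃ (S : Finset (Fin N)) (T : Finset (Fin n)),
      (∀ i ∈ S, ∀ k ∈ T, M (i, k) = true) ∧ r ≤ S.card ∧ r ≤ T.card) ⊆
      (powersetCard r (univ : Finset (Fin N)) ×ˢ powersetCard r (univ : Finset (Fin n))).biUnion
        fun q => univ.filter fun M : Fin N × Fin n → Bool => ∀ x ∈ q.1 ×ˢ q.2, M x = true := by
    intro M hM
    rw [mem_filter] at hM
    obtain ⟨-, S, T, h, hS, hT⟩ := hM
    obtain ⟨S', hS', hS'c⟩ := exists_subset_card_eq hS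
    obtain ⟨T', hT', hT'c⟩ := exists_subset_card_eq hT
    rw [mem_biUnion]
    refine ⟨(S', T'), ?_, ?_⟩
    · simp [mem_powersetCard, hS'c, hT'c]
    · rw [mem_filter]
      refine ⟨mem_univ _, fun x hx => ?_⟩
      rw [mem_product] at hx
      exact h x.1 (hS' hx.1) x.2 (hT' hx.2)
  have h2 : (univ.filter fun M : Fin N × Fin n → Bool =>
      ∃ (S : Finset (Fin N)) (T : Finset (Fin n)),
      (∀ i ∈ S, ∀ k ∈ T, M (i, k) = true) ∧ r ≤ S.card ∧ r ≤ T.card).card ≤
      (N.choose r * n.choose r) * 2 ^ (N * n - r ^ 2) := by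
    refine (card_le_card h1).trans (card_biUnion_le.trans ?_)
    calc ∑ q ∈ powersetCard r (univ : Finset (Fin N)) ×ˢ powersetCard r (univ : Finset (Fin n)),
        (univ.filter fun M : Fin N × Fin n → Bool => ∀ x ∈ q.1 ×ˢ q.2, M x = true).card
        ≤ ∑ q ∈ powersetCard r (univ : Finset (Fin N)) ×ˢ powersetCard r (univ : Finset (Fin n)),
          2 ^ (N * n - r ^ 2) := by
          refine sum_le_sum fun q hq => ?_
          rw [mem_product, mem_powersetCard, mem_powersetCard] at hq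
          have := card_ones_on (q.1 ×ˢ q.2)
          rw [card_product, hq.1.2, hq.2.2, Fintype.card_prod, Fintype.card_fin, Fintype.card_fin,
            ← sq] at this
          refine le_of_eq (Eq.trans (congrArg Finset.card ?_) this)
          ext M
          simp only [mem_filter, mem_univ, true_and]
      _ = _ := by simp [card_product]
  have hle : r ^ 2 ≤ N * n := by
    rw [sq]
    exact Nat.mul_le_mul hrN hrn
  calc _ ≤ (N.choose r * n.choose r) * 2 ^ (N * n - r ^ 2) * 2 ^ (r ^ 2) :=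
        Nat.mul_le_mul_right _ h2
    _ = (N.choose r * n.choose r) * 2 ^ (N * n) := by
        rw [mul_assoc, ← pow_add, Nat.sub_add_cancel hle]
    _ ≤ (N ^ r * n ^ r) * 2 ^ (N * n) :=
        Nat.mul_le_mul_right _ (Nat.mul_le_mul (Nat.choose_le_pow _ _) (Nat.choose_le_pow _ _))

open Classical in
/-- the matrix -/
theorem exists_matrix (N n r : ℕ) (hr : r = 2 * (Nat.log 2 N + 1) + 1) (hn : n ≤ N) (hn16 : 16 ≤ n)
    (hrn : r ≤ n) :
    ∃ M : Fin N → Fin n → Bool,
      (∀ (S : Finset (Fin N)) (T : Finset (Fin n)), (∀ i ∈ S, ∀ k ∈ T, M i k = true) →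
        S.card < r ∨ T.card < r) ∧
      N * n ≤ 4 * (univ.filter fun q : Fin N × Fin n => M q.1 q.2 = true).card := by
  set A := univ.filter fun M : Fin N × Fin n → Bool =>
      ∃ (S : Finset (Fin N)) (T : Finset (Fin n)),
      (∀ i ∈ S, ∀ k ∈ T, M (i, k) = true) ∧ r ≤ S.card ∧ r ≤ T.card with hA
  set C := univ.filter fun M : Fin N × Fin n → Bool =>
      4 * (univ.filter fun q => M q = true).card < Fintype.card (Fin N × Fin n) with hC
  obtain ⟨ℓ, hℓ⟩ : ∃ ℓ, ℓ = Nat.log 2 N + 1 := ⟨_, rfl⟩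
  rw [← hℓ] at hr
  have hN16 : 16 ≤ N := hn16.trans hn
  have hNℓ : N < 2 ^ ℓ := by
    rw [hℓ]
    exact Nat.lt_pow_succ_log_self (by norm_num) N
  have hcardA : 4 * A.card ≤ 2 ^ (N * n) := by
    have h1 := card_rect2 N n r (hrn.trans hn) hrn
    rw [← hA] at h1
    have h3 : 4 * (N ^ r * n ^ r) ≤ 2 ^ (r ^ 2) := by
      have h4 : N ^ r ≤ 2 ^ (ℓ * r) := by
        rw [pow_mul 2 ℓ r]
        exact Nat.pow_le_pow_left hNℓ.le _
      have h5 : n ^ r ≤ 2 ^ (ℓ * r) := (Nat.pow_le_pow_left hn r).trans h4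
      calc 4 * (N ^ r * n ^ r) ≤ 2 ^ 2 * (2 ^ (ℓ * r) * 2 ^ (ℓ * r)) :=
            Nat.mul_le_mul (by norm_num) (Nat.mul_le_mul h4 h5)
        _ = 2 ^ (2 + (ℓ * r + ℓ * r)) := by rw [← pow_add, ← pow_add]
        _ ≤ 2 ^ (r ^ 2) := Nat.pow_le_pow_right (by norm_num) (by
            have : 1 ≤ ℓ := by omega
            rw [hr]
            nlinarith)
    have h6 : 4 * A.card * 2 ^ (r ^ 2) ≤ 2 ^ (N * n) * 2 ^ (r ^ 2) := by
      calc 4 * A.card * 2 ^ (r ^ 2) = 4 * (A.card * 2 ^ (r ^ 2)) := by ring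
        _ ≤ 4 * ((N ^ r * n ^ r) * 2 ^ (N * n)) := Nat.mul_le_mul_left _ h1
        _ = (4 * (N ^ r * n ^ r)) * 2 ^ (N * n) := by ring
        _ ≤ 2 ^ (r ^ 2) * 2 ^ (N * n) := Nat.mul_le_mul_right _ h3
        _ = _ := by ring
    exact Nat.le_of_mul_le_mul_right h6 (by positivity)
  have hcardC : 4 * C.card ≤ 2 ^ (N * n) := by
    have h1 : (C.card : ℝ) ≤ (337 / 192 : ℝ) ^ Fintype.card (Fin N × Fin n) := by
      refine le_trans (le_of_eq (congrArg Nat.cast (congrArg Finset.card ?_)))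
        (card_few_ones (Fin N × Fin n))
      rw [hC]
      ext M
      simp only [mem_filter, mem_univ, true_and]
    rw [Fintype.card_prod, Fintype.card_fin, Fintype.card_fin] at h1
    have h3 : 4 * (337 / 192 : ℝ) ^ (N * n) ≤ 2 ^ (N * n) := by
      have h4 : 1 + ((N * n : ℕ) : ℝ) * (1 / 8) ≤ (1 + 1 / 8 : ℝ) ^ (N * n) :=
        one_add_mul_le_pow (by norm_num) _
      have h5 : (1 + 1 / 8 : ℝ) ^ (N * n) * (337 / 192 : ℝ) ^ (N * n) ≤ 2 ^ (N * n) := by
        rw [← mul_pow]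
        exact pow_le_pow_left₀ (by norm_num) (by norm_num) _
      have h6 : (4 : ℝ) ≤ 1 + ((N * n : ℕ) : ℝ) * (1 / 8) := by
        have : 256 ≤ N * n := by nlinarith
        have h7 : (256 : ℝ) ≤ ((N * n : ℕ) : ℝ) := by exact_mod_cast this
        linarith
      calc 4 * (337 / 192 : ℝ) ^ (N * n)
          ≤ (1 + 1 / 8 : ℝ) ^ (N * n) * (337 / 192 : ℝ) ^ (N * n) := by
            gcongr; exact h6.trans h4
        _ ≤ _ := h5
    have h7 : ((4 * C.card : ℕ) : ℝ) ≤ ((2 ^ (N * n) : ℕ) : ℝ) := by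
      push_cast
      linarith
    exact_mod_cast h7
  have hex : ∃ M : Fin N × Fin n → Bool, M ∉ A ∪ C := by
    by_contra hcon
    push Not at hcon
    have h1 : (univ : Finset (Fin N × Fin n → Bool)).card ≤ (A ∪ C).card :=
      card_le_card fun M _ => hcon M
    rw [card_univ, Fintype.card_fun, Fintype.card_bool, Fintype.card_prod, Fintype.card_fin,
      Fintype.card_fin] at h1
    have h2 := card_union_le A C
    have h3 : 0 < 2 ^ (N * n) := by positivity
    omega
  obtain ⟨M, hM⟩ := hex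
  rw [mem_union, not_or] at hM
  refine ⟨fun i k => M (i, k), ?_, ?_⟩
  · intro S T hST
    by_contra h3
    push Not at h3
    exact hM.1 (mem_filter.2 ⟨mem_univ _, S, T, hST, h3.1, h3.2⟩)
  · by_contra h3
    push Not at h3
    refine hM.2 (mem_filter.2 ⟨mem_univ _, ?_⟩)
    rw [Fintype.card_prod, Fintype.card_fin, Fintype.card_fin]
    refine lt_of_le_of_lt (le_of_eq ?_) h3
    refine congrArg (fun x => 4 * x) (congrArg Finset.card ?_)
    ext q
    simp only [mem_filter, mem_univ, true_and]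

end Pool.Agent.V11231.OMF
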