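import Pool.Agent.V11231.OMF.Circuit
import Pool.Agent.V11231.OMF.Matrix

/-! Matrix-vector products and unreliable negations. -/

set_option autoImplicit false
set_option linter.unusedSectionVars false
set_option linter.unusedVariables false

namespace Pool.Agent.V11231.OMF

open Finset Pool.Agent.V11231.FLT Pool.Agent.V11231.VCF
open Pool.Agent.H587R2.MRA (Points cols rows wire)

variable {N n t D : ℕ}

/-- the positions in the classes of the pairs of `u` -/
def posO (t : ℕ) (u : Fin N → Fin n → Bool) : Set (Fin N × Fin N) :=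
  {e | ∃ k : Fin n, (e.2 : ℕ) / t = k ∧ u e.1 k = true}

/-- the values of the literals -/
noncomputable def litO (t : ℕ) (f : Fin N × Fin N → Fin D) (u : Fin N → Fin n → Bool) :
    (Fin N × Fin N) × Bool → Bool :=
  literals (mix (posO t u) (fun _ => false) f) (flt f)

open Classical in
lemma mixO_true (u : Fin N → Fin n → Bool) (f : Fin N × Fin N → Fin D) (e : Fin N × Fin N) :
    mix (posO t u) (fun _ => false) f e = true ↔ e ∈ posO t u ∧ (f e : ℕ) = 0 := by
  unfold mix
  by_cases h : e ∈ posO t u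
  · rw [if_pos h, decide_eq_true_eq]
    exact ⟨fun h1 => ⟨h, h1⟩, fun h1 => h1.2⟩
  · rw [if_neg h]
    simp [h]

lemma litO_true (u : Fin N → Fin n → Bool) (f : Fin N × Fin N → Fin D) (e : Fin N × Fin N) :
    litO t f u (e, true) = true ↔ e ∈ posO t u ∧ (f e : ℕ) = 0 := by
  unfold litO literals
  rw [if_pos rfl]
  exact mixO_true u f e

lemma litO_false (u : Fin N → Fin n → Bool) (f : Fin N × Fin N → Fin D) (e : Fin N × Fin N) :
    litO t f u (e, false) = true ↔ (f e : ℕ) ≠ 0 := by
  unfold litO literals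
  rw [if_neg (by simp)]
  by_cases hf : (f e : ℕ) = 0
  · have h2 : e ∈ flt f := hf
    rw [if_pos h2]
    simp [hf]
  · have h2 : e ∉ flt f := hf
    rw [if_neg h2]
    have h3 : mix (posO t u) (fun _ => false) f e = false := by
      rw [Bool.eq_false_iff]
      intro h4
      exact hf ((mixO_true u f e).mp h4).2
    simp [h3, hf]

lemma litO_mono (f : Fin N × Fin N → Fin D) :
    Monotone (litO t f : (Fin N → Fin n → Bool) → (Fin N × Fin N) × Bool → Bool) := by
  intro u v huv p
  rcases p with ⟨e, b⟩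
  rw [Bool.le_iff_imp]
  cases b
  · rw [litO_false, litO_false]
    exact id
  · rw [litO_true, litO_true]
    rintro ⟨⟨k, hk, hu⟩, hf⟩
    refine ⟨⟨k, hk, ?_⟩, hf⟩
    have h1 := huv e.1 k
    rw [hu] at h1
    exact Bool.eq_true_of_true_le h1

/-- true points -/
def tau0 (j : Fin N) (k : Fin n) : Fin N → Fin n → Bool :=
  fun j' k' => decide (j' = j) && decide (k' = k)

/-- false points -/
def zeta0 (M : Fin N → Fin n → Bool) (i j : Fin N) : Fin N → Fin n → Bool :=
  fun j' k' => !(decide (j' = j) && M i k')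

lemma points0 (M : Fin N → Fin n → Bool) {r : ℕ}
    (hM : ∀ (S : Finset (Fin N)) (T : Finset (Fin n)), (∀ i ∈ S, ∀ k ∈ T, M i k = true) →
      S.card < r ∨ T.card < r) :
    Points (fun i k => M i k = true) tau0 (zeta0 M) r where
  same := by
    intro i j k h j' k'
    rw [Bool.le_iff_imp]
    intro h1
    simp only [tau0, Bool.and_eq_true, decide_eq_true_eq] at h1
    simp only [zeta0, h1.2]
    rw [Bool.not_eq_true] at h
    rw [h]
    simp
  diff := by
    intro i j j' k h j'' k''
    rw [Bool.le_iff_imp]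
    intro h1
    simp only [tau0, Bool.and_eq_true, decide_eq_true_eq] at h1
    simp only [zeta0, h1.1]
    have : j' ≠ j := fun h2 => h h2.symm
    simp [this]
  free := hM

/-- the large matrix -/
def big (t : ℕ) (M : Fin N → Fin n → Bool) : Fin N → Fin N → Bool :=
  fun i k' => decide (∃ k : Fin n, (k' : ℕ) / t = k ∧ M i k = true)

section

open Classical

lemma hin0 (M : Fin N → Fin n → Bool) {r : ℕ} (hr : 2 ≤ r)
    (C : LiteralNetwork (Fin N × Fin N) (Fin N × Fin N)) (f : Fin N × Fin N → Fin D)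
    (p : (Fin N × Fin N) × Bool) (i j : Fin N) (k : Fin n)
    (h : wv C (litO t f) (Sum.inl p) (zeta0 M i j) < wv C (litO t f) (Sum.inl p) (tau0 j k)) :
    k ∈ cols tau0 r (wv C (litO t f) (Sum.inl p)) j := by
  rcases p with ⟨e, b⟩
  have hwv : ∀ u : Fin N → Fin n → Bool, wv C (litO t f) (Sum.inl (e, b)) u =
      if litO t f u (e, b) = true then (1 : ℝ) else 0 := fun u => rfl
  have hτ : litO t f (tau0 j k) (e, b) = true := by
    by_contra hne
    rw [hwv, hwv, if_neg hne] at h
    split_ifs at h <;> linarith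
  have hζ : ¬ litO t f (zeta0 M i j) (e, b) = true := by
    intro hne
    rw [hwv, hwv, if_pos hne, if_pos hτ] at h
    exact lt_irrefl _ h
  cases b
  · rw [litO_false] at hτ hζ
    exact absurd hτ hζ
  · rw [litO_true] at hτ
    obtain ⟨⟨k0, hk0, hu⟩, hf⟩ := hτ
    simp only [tau0, Bool.and_eq_true, decide_eq_true_eq] at hu
    have h5 : (univ.filter fun k' => wv C (litO t f) (Sum.inl (e, true)) (tau0 j k) ≤
        wv C (litO t f) (Sum.inl (e, true)) (tau0 j k')) ⊆ {k} := by
      intro k' hk'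
      simp only [mem_filter, mem_univ, true_and] at hk'
      rw [mem_singleton]
      by_contra hne
      have h6 : ¬ litO t f (tau0 j k') (e, true) = true := by
        rw [litO_true]
        rintro ⟨⟨k1, hk1, hu1⟩, -⟩
        simp only [tau0, Bool.and_eq_true, decide_eq_true_eq] at hu1
        apply hne
        rw [← hu1.2, ← hu.2]
        exact Fin.ext (hk1.symm.trans hk0)
      have h7 : litO t f (tau0 j k) (e, true) = true := by
        rw [litO_true]
        refine ⟨⟨k0, hk0, ?_⟩, hf⟩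
        simp only [tau0, Bool.and_eq_true, decide_eq_true_eq]
        exact hu
      rw [hwv, hwv, if_pos h7, if_neg h6] at hk'
      norm_num at hk'
    simp only [cols, mem_filter, mem_univ, true_and]
    have := card_le_card h5
    rw [card_singleton] at this
    omega

/-- most functions have a fault in each class -/
lemma card_no_fault (hD : 0 < D) (ht : 3 * D ≤ t) (hnt : n * t ≤ N) (j : Fin N) (k : Fin n) :
    ((univ.filter fun f : Fin N × Fin N → Fin D =>
      ¬ ∃ k' : Fin N, (k' : ℕ) / t = k ∧ (f (j, k') : ℕ) = 0).card : ℝ) ≤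
      1 / 20 * (D : ℝ) ^ Fintype.card (Fin N × Fin N) := by
  have hDR : (1 : ℝ) ≤ D := by exact_mod_cast hD
  have hD0 : (0 : ℝ) < D := by linarith
  have ht0 : 0 < t := by omega
  have hk := k.isLt
  have hkt : (k : ℕ) * t + t ≤ N := by
    calc (k : ℕ) * t + t = (k + 1) * t := by ring
      _ ≤ n * t := Nat.mul_le_mul_right t hk
      _ ≤ N := hnt
  set B : Finset (Fin N × Fin N) := (univ : Finset (Fin t)).image
    (fun s : Fin t => (j, (⟨(k : ℕ) * t + s, by have := s.isLt; omega⟩ : Fin N))) with hB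
  have hBc : B.card = t := by
    rw [hB, card_image_of_injective, card_univ, Fintype.card_fin]
    intro s s' h
    have h1 := (Prod.mk.inj h).2
    have h2 := Fin.mk.inj h1
    exact Fin.ext (by omega)
  have h1 := card_avoid hD B
  rw [hBc] at h1
  have h2 : (univ.filter fun f : Fin N × Fin N → Fin D =>
      ¬ ∃ k' : Fin N, (k' : ℕ) / t = k ∧ (f (j, k') : ℕ) = 0).card ≤
      (univ.filter fun f : Fin N × Fin N → Fin D => ∀ e ∈ B, (f e : ℕ) ≠ 0).card := by
    refine card_le_card fun f hf => ?_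
    simp only [mem_filter, mem_univ, true_and] at hf ⊢
    intro e he hfe
    rw [hB, mem_image] at he
    obtain ⟨s, -, rfl⟩ := he
    refine hf ⟨_, ?_, hfe⟩
    show ((k : ℕ) * t + s) / t = k
    rw [Nat.mul_comm, Nat.mul_add_div ht0, Nat.div_eq_of_lt s.isLt, Nat.add_zero]
  have h3 : (1 - 1 / (D : ℝ)) ^ t ≤ 1 / 20 := by
    have h4 : 1 - 1 / (D : ℝ) ≤ Real.exp (-(1 / (D : ℝ))) := by
      have := Real.add_one_le_exp (-(1 / (D : ℝ)))
      linarith
    have h5 : 1 / (D : ℝ) ≤ 1 := by
      rw [div_le_one hD0]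
      exact hDR
    have h6 : (1 - 1 / (D : ℝ)) ^ t ≤ Real.exp (-3) := by
      refine (pow_le_pow_left₀ (by linarith) h4 _).trans ?_
      rw [← Real.exp_nat_mul]
      apply Real.exp_le_exp.mpr
      have h7 : (3 : ℝ) * D ≤ t := by exact_mod_cast ht
      have h8 : 3 ≤ (t : ℝ) / D := by
        rw [le_div_iff₀ hD0]
        exact h7
      have h9 : (t : ℝ) * -(1 / (D : ℝ)) = -((t : ℝ) / D) := by ring
      rw [h9]
      linarith
    refine h6.trans ?_
    rw [Real.exp_neg, ← one_div]
    apply one_div_le_one_div_of_le (by norm_num)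
    have h7 : Real.exp 3 = Real.exp 1 ^ 3 := by
      rw [← Real.exp_nat_mul]
      norm_num
    rw [h7]
    have h8 := Real.exp_one_gt_d9
    calc (20 : ℝ) ≤ 2.7182818283 ^ 3 := by norm_num
      _ ≤ _ := pow_le_pow_left₀ (by norm_num) h8.le 3
  have h4 : (0 : ℝ) ≤ (D : ℝ) ^ Fintype.card (Fin N × Fin N) := by positivity
  calc _ ≤ ((univ.filter fun f : Fin N × Fin N → Fin D => ∀ e ∈ B, (f e : ℕ) ≠ 0).card : ℝ) := by
        exact_mod_cast h2
    _ = (1 - 1 / (D : ℝ)) ^ t * (D : ℝ) ^ Fintype.card (Fin N × Fin N) := by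
        rw [← h1]
    _ ≤ _ := mul_le_mul_of_nonneg_right h3 h4

/-- The counting argument. -/
theorem omv_core (hD : 0 < D) (ht : 3 * D ≤ t) (hnt : n * t ≤ N) (M : Fin N → Fin n → Bool)
    {r : ℕ} (hr : 2 ≤ r)
    (hM : ∀ (S : Finset (Fin N)) (T : Finset (Fin n)), (∀ i ∈ S, ∀ k ∈ T, M i k = true) →
      S.card < r ∨ T.card < r)
    {R : Type} [Fintype R] [Nonempty R]
    (C : R → LiteralNetwork (Fin N × Fin N) (Fin N × Fin N))
    (h1 : ∀ (x : Fin N × Fin N → Bool) (i j : Fin N),
      (∃ k, big t M i k = true ∧ x (j, k) = true) → 4 / 5 ≤ faultyYesProb C D x (i, j))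
    (h2 : ∀ (x : Fin N × Fin N → Bool) (i j : Fin N),
      (∀ k, big t M i k = true → x (j, k) = false) → yesProb C x (i, j) ≤ 1 / 4) :
    1 / 2 * ((N : ℝ) * ((univ.filter fun q : Fin N × Fin n => M q.1 q.2 = true).card : ℝ) *
      Fintype.card R) ≤
      ((r - 1 : ℕ) : ℝ) ^ 2 * ∑ ρ, ((C ρ).wires : ℝ) +
        Fintype.card R * ((N : ℝ) * N * ((r - 1 : ℕ) : ℝ)) := by
  have hF : Nonempty (Fin D) := ⟨⟨0, hD⟩⟩
  have hcard : (Fintype.card (Fin N × Fin N → Fin D) : ℝ) =
      (D : ℝ) ^ Fintype.card (Fin N × Fin N) := by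
    rw [Fintype.card_fun, Fintype.card_fin]
    push_cast
    rfl
  have hDR : (0 : ℝ) < D := by exact_mod_cast hD
  have hΩ : (0 : ℝ) < Fintype.card (R × (Fin N × Fin N → Fin D)) := by
    exact_mod_cast Fintype.card_pos
  have hR : (0 : ℝ) < Fintype.card R := by exact_mod_cast Fintype.card_pos
  obtain ⟨P, hP⟩ : ∃ P : ℝ, P = (D : ℝ) ^ Fintype.card (Fin N × Fin N) := ⟨_, rfl⟩
  have hP0 : 0 < P := by rw [hP]; positivity
  -- the answers
  have hyes : ∀ (i j : Fin N) (k : Fin n), M i k = true →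
      3 / 4 * (Fintype.card (R × (Fin N × Fin N → Fin D)) : ℝ) ≤
      ((univ.filter fun v : R × (Fin N × Fin N → Fin D) =>
        0 < (C v.1).val (litO t v.2 (tau0 j k)) ((C v.1).out (i, j))).card : ℝ) := by
    intro i j k hik
    have key := thick_acc hD (fun (ρ : R) y => 0 < (C ρ).val y ((C ρ).out (i, j)))
      (fun ρ y z hyz h => lt_of_lt_of_le h (val_mono (C ρ) hyz _ _ rfl)) (posO t (tau0 j k))
      (fun _ => false) (fun f => ∃ k' : Fin N, (k' : ℕ) / t = k ∧ (f (j, k') : ℕ) = 0)
      ?_ ?_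
    · exact key
    · refine le_trans (le_of_eq ?_) (card_no_fault hD ht hnt j k)
      congr!
    · rintro f ⟨k', hk', hf⟩
      have h4 := h1 (mix (posO t (tau0 j k)) (fun _ => false) f) i j ⟨k', by
        unfold big
        rw [decide_eq_true_eq]
        exact ⟨k, hk', hik⟩, by
        rw [mixO_true]
        refine ⟨⟨k, hk', ?_⟩, hf⟩
        simp [tau0]⟩
      unfold faultyYesProb at h4
      rw [le_div_iff₀ (by
        rw [Nat.card_eq_fintype_card]
        exact hΩ)] at h4
      rw [Nat.card_eq_fintype_card (α := R × (Fin N × Fin N → Fin D))] at h4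
      refine h4.trans (le_of_eq ?_)
      congr 1
      rw [Nat.card_eq_fintype_card, Fintype.card_subtype]
      rfl
  have hno : ∀ (i j : Fin N),
      ((univ.filter fun v : R × (Fin N × Fin N → Fin D) =>
        0 < (C v.1).val (litO t v.2 (zeta0 M i j)) ((C v.1).out (i, j))).card : ℝ) ≤
      1 / 4 * (Fintype.card (R × (Fin N × Fin N → Fin D)) : ℝ) := by
    intro i j
    refine thick_rej (fun (ρ : R) y => 0 < (C ρ).val y ((C ρ).out (i, j)))
      (fun ρ y z hyz h => lt_of_lt_of_le h (val_mono (C ρ) hyz _ _ rfl)) (posO t (zeta0 M i j))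
      (fun _ => false) fun f => ?_
    have h4 := h2 (mix (posO t (zeta0 M i j)) (fun _ => false) f) i j (fun k' hk' => by
      unfold big at hk'
      rw [decide_eq_true_eq] at hk'
      obtain ⟨k, hk, hik⟩ := hk'
      rw [Bool.eq_false_iff]
      intro h5
      rw [mixO_true] at h5
      obtain ⟨⟨k2, hk2, hz⟩, -⟩ := h5
      have h6 : k2 = k := Fin.ext (hk2.symm.trans hk)
      rw [h6] at hz
      simp [zeta0, hik] at hz)
    unfold yesProb at h4
    rw [div_le_iff₀ (by rw [Nat.card_eq_fintype_card]; exact hR),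
      Nat.card_eq_fintype_card (α := R)] at h4
    refine le_trans (le_of_eq ?_) h4
    congr 1
    rw [Nat.card_eq_fintype_card, Fintype.card_subtype]
    rfl
  -- distinguished triples
  have hdist : ∀ (i j : Fin N) (k : Fin n), M i k = true →
      1 / 2 * (Fintype.card (R × (Fin N × Fin N → Fin D)) : ℝ) ≤
      ((univ.filter fun v : R × (Fin N × Fin N → Fin D) =>
        (C v.1).val (litO t v.2 (zeta0 M i j)) ((C v.1).out (i, j)) <
        (C v.1).val (litO t v.2 (tau0 j k)) ((C v.1).out (i, j))).card : ℝ) := by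
    intro i j k hik
    have g1 := hyes i j k hik
    have g2 := hno i j
    have g3 : (univ.filter fun v : R × (Fin N × Fin N → Fin D) =>
        0 < (C v.1).val (litO t v.2 (tau0 j k)) ((C v.1).out (i, j))) ⊆
        (univ.filter fun v : R × (Fin N × Fin N → Fin D) =>
          (C v.1).val (litO t v.2 (zeta0 M i j)) ((C v.1).out (i, j)) <
          (C v.1).val (litO t v.2 (tau0 j k)) ((C v.1).out (i, j))) ∪
        (univ.filter fun v : R × (Fin N × Fin N → Fin D) =>
          0 < (C v.1).val (litO t v.2 (zeta0 M i j)) ((C v.1).out (i, j))) := by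
      intro v hv
      simp only [mem_filter, mem_univ, true_and, mem_union] at hv ⊢
      by_cases h5 : 0 < (C v.1).val (litO t v.2 (zeta0 M i j)) ((C v.1).out (i, j))
      · exact Or.inr h5
      · exact Or.inl (lt_of_le_of_lt (not_lt.mp h5) hv)
    have g4 : ((univ.filter fun v : R × (Fin N × Fin N → Fin D) =>
        0 < (C v.1).val (litO t v.2 (tau0 j k)) ((C v.1).out (i, j))).card : ℝ) ≤
        ((univ.filter fun v : R × (Fin N × Fin N → Fin D) =>
          (C v.1).val (litO t v.2 (zeta0 M i j)) ((C v.1).out (i, j)) <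
          (C v.1).val (litO t v.2 (tau0 j k)) ((C v.1).out (i, j))).card : ℝ) +
        ((univ.filter fun v : R × (Fin N × Fin N → Fin D) =>
          0 < (C v.1).val (litO t v.2 (zeta0 M i j)) ((C v.1).out (i, j))).card : ℝ) := by
      exact_mod_cast (card_le_card g3).trans (card_union_le _ _)
    linarith
  -- the sum over the triples
  set T : Finset (Fin N × Fin N × Fin n) := univ.filter fun p => M p.1 p.2.2 = true with hT
  have hTc : (T.card : ℝ) = (N : ℝ) *
      ((univ.filter fun q : Fin N × Fin n => M q.1 q.2 = true).card : ℝ) := by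
    have h5 : T.card = ((univ : Finset (Fin N)) ×ˢ
        (univ.filter fun q : Fin N × Fin n => M q.1 q.2 = true)).card := by
      refine card_bij' (fun p _ => (p.2.1, (p.1, p.2.2))) (fun q _ => (q.2.1, q.1, q.2.2))
        ?_ ?_ ?_ ?_
      · intro p hp
        simp only [hT, mem_filter, mem_univ, true_and, mem_product] at hp ⊢
        exact hp
      · intro q hq
        simp only [hT, mem_filter, mem_univ, true_and, mem_product] at hq ⊢
        exact hq
      · intro p _
        rfl
      · intro q _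
        rfl
    rw [h5, card_product, card_univ, Fintype.card_fin]
    push_cast
    rfl
  have hsum1 : (T.card : ℝ) * (1 / 2 * (Fintype.card (R × (Fin N × Fin N → Fin D)) : ℝ)) ≤
      ∑ p ∈ T, ((univ.filter fun v : R × (Fin N × Fin N → Fin D) =>
        (C v.1).val (litO t v.2 (zeta0 M p.1 p.2.1)) ((C v.1).out (p.1, p.2.1)) <
        (C v.1).val (litO t v.2 (tau0 p.2.1 p.2.2)) ((C v.1).out (p.1, p.2.1))).card : ℝ) := by
    rw [← nsmul_eq_mul, ← sum_const]
    refine sum_le_sum fun p hp => ?_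
    rw [hT, mem_filter] at hp
    exact hdist p.1 p.2.1 p.2.2 hp.2
  have hswap : ∑ p ∈ T, ((univ.filter fun v : R × (Fin N × Fin N → Fin D) =>
        (C v.1).val (litO t v.2 (zeta0 M p.1 p.2.1)) ((C v.1).out (p.1, p.2.1)) <
        (C v.1).val (litO t v.2 (tau0 p.2.1 p.2.2)) ((C v.1).out (p.1, p.2.1))).card : ℝ) ≤
      ∑ v : R × (Fin N × Fin N → Fin D), ((univ.filter fun p : Fin N × Fin N × Fin n =>
        (C v.1).val (litO t v.2 (zeta0 M p.1 p.2.1)) ((C v.1).out (p.1, p.2.1)) <
        (C v.1).val (litO t v.2 (tau0 p.2.1 p.2.2)) ((C v.1).out (p.1, p.2.1))).card : ℝ) := by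
    simp only [card_filter]
    push_cast
    rw [sum_comm]
    refine sum_le_sum fun v _ => ?_
    refine sum_le_sum_of_subset_of_nonneg (subset_univ _) fun p _ _ => ?_
    split_ifs <;> norm_num
  have hv : ∀ v : R × (Fin N × Fin N → Fin D), ((univ.filter fun p : Fin N × Fin N × Fin n =>
        (C v.1).val (litO t v.2 (zeta0 M p.1 p.2.1)) ((C v.1).out (p.1, p.2.1)) <
        (C v.1).val (litO t v.2 (tau0 p.2.1 p.2.2)) ((C v.1).out (p.1, p.2.1))).card : ℝ) ≤
      ((r - 1 : ℕ) : ℝ) ^ 2 * ((C v.1).wires : ℝ) + (N : ℝ) * N * ((r - 1 : ℕ) : ℝ) := by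
    intro v
    have h5 := card_walk (points0 M hM) (C v.1) (lit := litO t v.2) (litO_mono v.2)
      (fun p i j k => hin0 M hr (C v.1) v.2 p i j k) (fun i j => (i, j))
    rw [Fintype.card_fin] at h5
    have h6 : (((univ.filter fun p : Fin N × Fin N × Fin n =>
      wv (C v.1) (litO t v.2) (Sum.inr ((C v.1).out (p.1, p.2.1))) (zeta0 M p.1 p.2.1) <
        wv (C v.1) (litO t v.2) (Sum.inr ((C v.1).out (p.1, p.2.1))) (tau0 p.2.1 p.2.2)).card : ℕ) :
        ℝ) ≤ (((r - 1) ^ 2 * (C v.1).wires + N * N * (r - 1) : ℕ) : ℝ) := by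
      exact_mod_cast h5
    push_cast at h6
    exact h6
  have hsum2 := hsum1.trans (hswap.trans (sum_le_sum fun v _ => hv v))
  have hsum3 : ∑ v : R × (Fin N × Fin N → Fin D),
      (((r - 1 : ℕ) : ℝ) ^ 2 * ((C v.1).wires : ℝ) + (N : ℝ) * N * ((r - 1 : ℕ) : ℝ)) =
      (((r - 1 : ℕ) : ℝ) ^ 2 * ∑ ρ, ((C ρ).wires : ℝ) +
        Fintype.card R * ((N : ℝ) * N * ((r - 1 : ℕ) : ℝ))) * P := by
    rw [Fintype.sum_prod_type]
    simp only [sum_const, card_univ, nsmul_eq_mul]
    rw [show ((Fintype.card (Fin N × Fin N → Fin D) : ℕ) : ℝ) = P from hcard.trans hP.symm,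
      ← mul_sum, sum_add_distrib, ← mul_sum, sum_const, card_univ, nsmul_eq_mul]
    ring
  rw [hsum3, hTc, Fintype.card_prod] at hsum2
  push_cast at hsum2
  rw [show ((Fintype.card (Fin N × Fin N → Fin D) : ℕ) : ℝ) = P from hcard.trans hP.symm] at hsum2
  refine le_of_mul_le_mul_right ?_ hP0
  refine le_trans (le_of_eq ?_) hsum2
  ring

end

end Pool.Agent.V11231.OMF
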