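import Pool.Agent.V11231.OMF.Core
import Pool.Agent.H587R2.MRA.Final

/-! The lower bound for matrix-vector products. -/

set_option autoImplicit false
set_option linter.unusedSectionVars false
set_option linter.unusedVariables false

namespace Pool.Agent.V11231.OMF

open Finset Pool.Agent.V11231.FLT Pool.Agent.V11231.VCF

/-- **Matrix-vector products need reliable negations.** -/
theorem omv_fault (N D : ℕ) (hN : 2 ≤ N) (hD : 1 ≤ D) (hlog : 400 * D * Real.logb 2 N ≤ N) :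
    ∃ M : Fin N → Fin N → Bool, ∀ (R : Type) [Fintype R] [Nonempty R]
      (C : R → LiteralNetwork (Fin N × Fin N) (Fin N × Fin N)),
      (∀ (v : Fin N × Fin N → Bool) (i j : Fin N), (∃ k, M i k = true ∧ v (j, k) = true) →
        4 / 5 ≤ faultyYesProb C D v (i, j)) →
      (∀ (v : Fin N × Fin N → Bool) (i j : Fin N), (¬ ∃ k, M i k = true ∧ v (j, k) = true) →
        yesProb C v (i, j) ≤ 1 / 4) →
      (N : ℝ) ^ 3 ≤ 1536 * D * Real.logb 2 N ^ 2 * ((∑ ρ, ((C ρ).wires : ℝ)) / Fintype.card R) := by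
  have hD0 : 0 < D := hD
  have hDR : (1 : ℝ) ≤ D := by exact_mod_cast hD
  have hDpos : (0 : ℝ) < D := by linarith
  have hNR : (2 : ℝ) ≤ N := by exact_mod_cast hN
  obtain ⟨-, hl2⟩ := Pool.Agent.H587R2.MRA.log_bounds hN
  obtain ⟨ℓ, hℓ⟩ : ∃ ℓ, ℓ = Nat.log 2 N + 1 := ⟨_, rfl⟩
  rw [← hℓ] at hl2
  obtain ⟨g, hg⟩ : ∃ g, g = Real.logb 2 N := ⟨_, rfl⟩
  rw [← hg] at hl2 hlog ⊢
  have hg1 : 1 ≤ g := by
    rw [hg, Real.le_logb_iff_rpow_le (by norm_num) (by positivity), Real.rpow_one]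
    exact hNR
  have hℓ1 : 1 ≤ ℓ := by omega
  have hℓ1' : (1 : ℝ) ≤ ℓ := by exact_mod_cast hℓ1
  obtain ⟨n, hn⟩ : ∃ n, n = N / (3 * D) := ⟨_, rfl⟩
  have hn1 : n * (3 * D) ≤ N := by
    rw [hn]
    exact Nat.div_mul_le_self N (3 * D)
  have hn2 : (N : ℝ) < ((n : ℝ) + 1) * (3 * D) := by
    have h6 : N < (n + 1) * (3 * D) := by
      have h7 := Nat.div_add_mod N (3 * D)
      have h8 := Nat.mod_lt N (by omega : 3 * D > 0)
      rw [← hn] at h7
      calc N = 3 * D * n + N % (3 * D) := h7.symm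
        _ < 3 * D * n + 3 * D := by omega
        _ = _ := by ring
    exact_mod_cast h6
  have hn3 : (65 : ℝ) * ℓ ≤ n := by
    have h1 : 400 * D * g < ((n : ℝ) + 1) * (3 * D) := lt_of_le_of_lt hlog hn2
    have h2 : 400 * g < ((n : ℝ) + 1) * 3 := by
      refine lt_of_mul_lt_mul_right ?_ hDpos.le
      linarith
    linarith
  have hn4 : 65 * ℓ ≤ n := by exact_mod_cast hn3
  have hnN : n ≤ N := by
    calc n ≤ n * (3 * D) := Nat.le_mul_of_pos_right _ (by omega)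
      _ ≤ N := hn1
  obtain ⟨M, hM1, hM2⟩ := exists_matrix N n (2 * ℓ + 1) (by rw [hℓ]) hnN (by omega) (by omega)
  refine ⟨big (3 * D) M, fun R _ _ C h1 h2 => ?_⟩
  have hR : (0 : ℝ) < Fintype.card R := by exact_mod_cast Fintype.card_pos
  have key := omv_core (t := 3 * D) hD0 le_rfl hn1 M (by omega) hM1 C h1
    (fun x i j h => h2 x i j (by
      rintro ⟨k, hk, hx⟩
      rw [h k hk] at hx
      exact Bool.false_ne_true hx))
  have hr : ((2 * ℓ + 1 - 1 : ℕ) : ℝ) = 2 * ℓ := by simp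
  rw [hr] at key
  obtain ⟨W, hW⟩ : ∃ W : ℝ, W = (∑ ρ, ((C ρ).wires : ℝ)) / Fintype.card R := ⟨_, rfl⟩
  have hW2 : ∑ ρ, ((C ρ).wires : ℝ) = W * Fintype.card R := by
    rw [hW, div_mul_cancel₀ _ hR.ne']
  have hW0 : 0 ≤ W := by
    rw [hW]
    exact div_nonneg (sum_nonneg fun _ _ => Nat.cast_nonneg _) hR.le
  rw [← hW]
  rw [hW2] at key
  obtain ⟨o, ho⟩ : ∃ o : ℕ, o = (univ.filter fun q : Fin N × Fin n => M q.1 q.2 = true).card :=
    ⟨_, rfl⟩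
  rw [← ho] at key hM2
  have hM3 : (N : ℝ) * n ≤ 4 * o := by exact_mod_cast hM2
  have key2 : 1 / 2 * ((N : ℝ) * o) ≤ (2 * (ℓ : ℝ)) ^ 2 * W + (N : ℝ) * N * (2 * ℓ) := by
    refine le_of_mul_le_mul_right ?_ hR
    calc _ = 1 / 2 * ((N : ℝ) * o * Fintype.card R) := by ring
      _ ≤ _ := key
      _ = _ := by ring
  have hNN : (0 : ℝ) < (N : ℝ) * N := by positivity
  have h3 : (N : ℝ) * (N * n) ≤ N * (4 * o) := mul_le_mul_of_nonneg_left hM3 (by positivity)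
  have h4 : (N : ℝ) * N * (32 * ℓ) ≤ (N : ℝ) * N * n :=
    mul_le_mul_of_nonneg_left (by linarith) hNN.le
  have h5 : (N : ℝ) * N * n ≤ 64 * (ℓ : ℝ) ^ 2 * W := by
    have h6 : (N : ℝ) * (N * n) = N * N * n := by ring
    have h7 : (2 * (ℓ : ℝ)) ^ 2 * W = 4 * (ℓ : ℝ) ^ 2 * W := by ring
    rw [h6] at h3
    rw [h7] at key2
    linarith
  have h6 : (ℓ : ℝ) ^ 2 ≤ 4 * g ^ 2 := by
    calc (ℓ : ℝ) ^ 2 ≤ (2 * g) ^ 2 := pow_le_pow_left₀ (by linarith) hl2 2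
      _ = _ := by ring
  have h7 : (N : ℝ) ≤ 6 * D * n := by
    have h8 : (n : ℝ) + 1 ≤ 2 * n := by linarith
    calc (N : ℝ) ≤ ((n : ℝ) + 1) * (3 * D) := hn2.le
      _ ≤ (2 * n) * (3 * D) := mul_le_mul_of_nonneg_right h8 (by positivity)
      _ = _ := by ring
  calc (N : ℝ) ^ 3 = (N : ℝ) * N * N := by ring
    _ ≤ (N : ℝ) * N * (6 * D * n) := mul_le_mul_of_nonneg_left h7 hNN.le
    _ = 6 * D * ((N : ℝ) * N * n) := by ring
    _ ≤ 6 * D * (64 * (ℓ : ℝ) ^ 2 * W) := mul_le_mul_of_nonneg_left h5 (by positivity)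
    _ = 384 * D * W * (ℓ : ℝ) ^ 2 := by ring
    _ ≤ 384 * D * W * (4 * g ^ 2) := mul_le_mul_of_nonneg_left h6 (by positivity)
    _ = _ := by ring

end Pool.Agent.V11231.OMF
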