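import Pool.Agent.V11231.VCF.Thick

/-! Unreliable negations: transfer lemmas for arbitrary monotone acceptance. -/

set_option autoImplicit false
set_option linter.unusedSectionVars false
set_option linter.unusedVariables false

namespace Pool.Agent.V11231.OMF

open Finset Pool.Agent.V11231.FLT Pool.Agent.V11231.VCF

variable {E R : Type} [Fintype E] [DecidableEq E] [Fintype R] [Nonempty R]

open Classical in
/-- **Acceptance.** -/
lemma thick_acc {D : ℕ} (hD : 0 < D) (A : R → (E × Bool → Bool) → Prop)
    (hA : ∀ r y z, y ≤ z → A r y → A r z) (S : Set E) (base : E → Bool)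
    (good : (E → Fin D) → Prop)
    (hbad : ((univ.filter fun f : E → Fin D => ¬ good f).card : ℝ) ≤
      1 / 20 * (D : ℝ) ^ Fintype.card E)
    (h : ∀ f, good f → 4 / 5 * (Fintype.card (R × (E → Fin D)) : ℝ) ≤
      ((univ.filter fun v : R × (E → Fin D) =>
        A v.1 (literals (mix S base f) (flt v.2))).card : ℝ)) :
    3 / 4 * (Fintype.card (R × (E → Fin D)) : ℝ) ≤
      ((univ.filter fun v : R × (E → Fin D) =>
        A v.1 (literals (mix S base v.2) (flt v.2))).card : ℝ) := by
  have hcard : (Fintype.card (E → Fin D) : ℝ) = (D : ℝ) ^ Fintype.card E := by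
    rw [Fintype.card_fun, Fintype.card_fin]
    push_cast
    rfl
  have hDE : (0 : ℝ) < (D : ℝ) ^ Fintype.card E := by positivity
  have hR : (0 : ℝ) < Fintype.card R := by exact_mod_cast Fintype.card_pos
  set P : ℝ := (D : ℝ) ^ Fintype.card E with hP
  have hprod : (Fintype.card (R × (E → Fin D)) : ℝ) = (Fintype.card R : ℝ) * P := by
    rw [Fintype.card_prod]
    push_cast
    rw [show ((Fintype.card (E → Fin D) : ℕ) : ℝ) = P from hcard]
  -- the triples
  set T : Finset ((R × (E → Fin D)) × (E → Fin D)) :=
    univ.filter fun w => A w.1.1 (literals (mix S base w.2) (flt w.1.2)) with hT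
  set T' : Finset ((R × (E → Fin D)) × (E → Fin D)) :=
    univ.filter fun w => A w.1.1 (literals (mix S base w.1.2) (flt w.1.2)) with hT'
  have hTT : T.card ≤ T'.card := by
    refine Finset.card_le_card_of_injOn (fun w => ((w.1.1, glue S w.2 w.1.2), glue S w.1.2 w.2))
      ?_ ?_
    · intro w hw
      rw [Finset.mem_coe, hT, Finset.mem_filter] at hw
      rw [Finset.mem_coe, hT', Finset.mem_filter]
      refine ⟨Finset.mem_univ _, ?_⟩
      show A w.1.1 (literals (mix S base (glue S w.2 w.1.2)) (flt (glue S w.2 w.1.2)))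
      rw [mix_glue]
      exact hA _ _ _ (lit_glue S base w.2 w.1.2) hw.2
    · intro w _ w' _ hww
      simp only [Prod.mk.injEq] at hww
      obtain ⟨⟨h1, h2⟩, h3⟩ := hww
      have e1 : w.2 = w'.2 := by
        rw [← glue_glue S w.2 w.1.2, ← glue_glue S w'.2 w'.1.2, h2, h3]
      have e2 : w.1.2 = w'.1.2 := by
        rw [← glue_glue S w.1.2 w.2, ← glue_glue S w'.1.2 w'.2, h2, h3]
      exact Prod.ext (Prod.ext h1 e2) e1
  have hT'card : (T'.card : ℝ) = ((univ.filter fun v : R × (E → Fin D) =>
        A v.1 (literals (mix S base v.2) (flt v.2))).card : ℝ) * P := by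
    have h1 : T' = (univ.filter fun v : R × (E → Fin D) =>
        A v.1 (literals (mix S base v.2) (flt v.2))) ×ˢ (univ : Finset (E → Fin D)) := by
      ext w
      simp [hT']
    rw [h1, Finset.card_product, Finset.card_univ]
    push_cast
    rw [hcard]
  have hTcard : (T.card : ℝ) = ∑ f : E → Fin D,
      ((univ.filter fun v : R × (E → Fin D) =>
        A v.1 (literals (mix S base f) (flt v.2))).card : ℝ) := by
    have h1 : T.card = ∑ f : E → Fin D, (T.filter fun w => w.2 = f).card :=
      Finset.card_eq_sum_card_fiberwise (fun w _ => Finset.mem_coe.mpr (Finset.mem_univ _))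
    rw [h1]
    push_cast
    refine Finset.sum_congr rfl fun f _ => ?_
    congr 1
    refine Finset.card_bij (fun w _ => w.1) ?_ ?_ ?_
    · intro w hw
      simp only [hT, Finset.mem_filter, Finset.mem_univ, true_and] at hw ⊢
      rw [← hw.2]
      exact hw.1
    · intro w hw w' hw' hww
      simp only [Finset.mem_filter] at hw hw'
      exact Prod.ext hww (hw.2.trans hw'.2.symm)
    · intro v hv
      simp only [Finset.mem_filter, Finset.mem_univ, true_and] at hv
      refine ⟨(v, f), ?_, rfl⟩
      simp only [hT, Finset.mem_filter, Finset.mem_univ, true_and, and_true]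
      exact hv
  have hsum : (∑ f : E → Fin D, if good f then 4 / 5 * ((Fintype.card R : ℝ) * P) else 0) ≤
      (T.card : ℝ) := by
    rw [hTcard]
    refine Finset.sum_le_sum fun f _ => ?_
    split_ifs with hf
    · have := h f hf
      rw [hprod] at this
      exact this
    · positivity
  have hgood : (19 / 20 : ℝ) * P ≤ ((univ.filter fun f : E → Fin D => good f).card : ℝ) := by
    have h1 := Finset.card_filter_add_card_filter_not (s := (univ : Finset (E → Fin D)))
      (p := fun f => good f)
    rw [Finset.card_univ] at h1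
    have h2 : ((univ.filter fun f : E → Fin D => good f).card : ℝ) +
        ((univ.filter fun f : E → Fin D => ¬ good f).card : ℝ) = P := by
      rw [← hcard]
      exact_mod_cast h1
    linarith
  rw [← Finset.sum_filter, Finset.sum_const, nsmul_eq_mul] at hsum
  have h5 : (19 / 20 : ℝ) * P * (4 / 5 * ((Fintype.card R : ℝ) * P)) ≤
      ((univ.filter fun v : R × (E → Fin D) =>
        A v.1 (literals (mix S base v.2) (flt v.2))).card : ℝ) * P := by
    rw [← hT'card]
    refine le_trans ?_ (hsum.trans (by exact_mod_cast hTT))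
    exact mul_le_mul_of_nonneg_right hgood (by positivity)
  have h6 : (19 / 20 : ℝ) * (4 / 5 * ((Fintype.card R : ℝ) * P)) ≤
      ((univ.filter fun v : R × (E → Fin D) =>
        A v.1 (literals (mix S base v.2) (flt v.2))).card : ℝ) := by
    refine le_of_mul_le_mul_right ?_ hDE
    calc (19 / 20 : ℝ) * (4 / 5 * ((Fintype.card R : ℝ) * P)) * P
        = (19 / 20 : ℝ) * P * (4 / 5 * ((Fintype.card R : ℝ) * P)) := by ring
      _ ≤ _ := h5
  refine le_trans ?_ h6
  rw [hprod]
  have h8 : 0 ≤ (Fintype.card R : ℝ) * P := by positivity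
  linarith

open Classical in
/-- **Rejection.** -/
lemma thick_rej {D : ℕ} (A : R → (E × Bool → Bool) → Prop)
    (hA : ∀ r y z, y ≤ z → A r y → A r z) (S : Set E) (base : E → Bool)
    (h : ∀ f : E → Fin D, ((univ.filter fun ρ : R => A ρ (literals (mix S base f) ∅)).card : ℝ) ≤
      1 / 4 * (Fintype.card R : ℝ)) :
    ((univ.filter fun v : R × (E → Fin D) =>
        A v.1 (literals (mix S base v.2) (flt v.2))).card : ℝ) ≤
      1 / 4 * (Fintype.card (R × (E → Fin D)) : ℝ) := by
  have hR : (0 : ℝ) < Fintype.card R := by exact_mod_cast Fintype.card_pos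
  set T : Finset (R × (E → Fin D)) :=
    univ.filter fun v => A v.1 (literals (mix S base v.2) (flt v.2)) with hT
  have h1 : T.card = ∑ f : E → Fin D, (T.filter fun w => w.2 = f).card :=
    Finset.card_eq_sum_card_fiberwise (fun w _ => Finset.mem_coe.mpr (Finset.mem_univ _))
  have h2 : ∀ f : E → Fin D, ((T.filter fun w => w.2 = f).card : ℝ) ≤
      1 / 4 * (Fintype.card R : ℝ) := by
    intro f
    refine le_trans ?_ (h f)
    have h5 : (T.filter fun w => w.2 = f).card ≤
        (univ.filter fun ρ : R => A ρ (literals (mix S base f) ∅)).card := by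
      refine Finset.card_le_card_of_injOn (fun w => w.1) ?_ ?_
      · intro w hw
        simp only [hT, Finset.coe_filter, Finset.mem_filter, Finset.mem_univ, true_and,
          Set.mem_setOf_eq] at hw ⊢
        rw [← hw.2]
        exact hA _ _ _ (lit_empty _ _) hw.1
      · intro w hw w' hw' hww
        simp only [Finset.coe_filter, Set.mem_setOf_eq] at hw hw'
        exact Prod.ext hww (hw.2.trans hw'.2.symm)
    exact_mod_cast h5
  have h3 : (T.card : ℝ) ≤ ∑ f : E → Fin D, 1 / 4 * (Fintype.card R : ℝ) := by
    rw [h1]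
    push_cast
    exact Finset.sum_le_sum fun f _ => h2 f
  refine h3.trans (le_of_eq ?_)
  rw [Finset.sum_const, Finset.card_univ, nsmul_eq_mul, Fintype.card_prod]
  push_cast
  ring

end Pool.Agent.V11231.OMF
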